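import Mathlib

/-!
Colour-symmetric 1-dependent `q`-colourings of cycles, `q ≥ 5`, by i.i.d. geometric labels
(project CY, MP_240aa8_pr).  Exact statements of the parts.
-/

set_option autoImplicit false

namespace Pool.Agent.W438.CY

open Function

open Classical in
/-- Indicator of a proposition. -/
noncomputable def I (p : Prop) : ℝ := if p then 1 else 0

section Comb

variable {m : ℕ} {C : Type}

/-- inner adjacency of the block letters `i < j` -/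
def Inn (g : Fin m → ℕ) (i j : Fin m) : Prop :=
  i < j ∧ ∀ l, i < l → l < j → g i ≤ g l ∧ g j < g l

/-- adjacency of `j` and the next copy of `i` around the vertex `b` (label `β`) -/
def Out (g : Fin m → ℕ) (β : ℕ) (i j : Fin m) : Prop :=
  i ≤ j ∧ g j ≤ β ∧ g i < β ∧ (∀ l, l < i → g j ≤ g l ∧ g i < g l) ∧
    ∀ l, j < l → g j ≤ g l ∧ g i < g l

/-- `j` is a left neighbour of `b` -/
def Lf (g : Fin m → ℕ) (β : ℕ) (j : Fin m) : Prop := ∀ l, j < l → g j ≤ g l ∧ β < g l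

/-- `i` is a right neighbour of `b` -/
def Rt (g : Fin m → ℕ) (β : ℕ) (i : Fin m) : Prop := ∀ l, l < i → β ≤ g l ∧ g i < g l

/-- `b` is adjacent to itself -/
def Bd (g : Fin m → ℕ) (β : ℕ) : Prop := ∀ l, β < g l

def PI (x : Fin m → C) (g : Fin m → ℕ) : Prop := ∀ i j, Inn g i j → x i ≠ x j

def Pr (x : Fin m → C) (g : Fin m → ℕ) (β : ℕ) : Prop :=
  ∀ i j, Inn g i j ∨ Out g β i j → x i ≠ x j

def NewL (x : Fin m → C) (g : Fin m → ℕ) (β : ℕ) (j : Fin m) : Prop :=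
  (∀ l, l < j → Lf g β l → x l ≠ x j) ∧ ∀ l, Rt g β l → g l + 1 < g j → x l ≠ x j

def NewR (x : Fin m → C) (g : Fin m → ℕ) (β : ℕ) (j : Fin m) : Prop :=
  (∀ l, Lf g β l → g l ≤ g j + 1 → x l ≠ x j) ∧ ∀ l, j < l → Rt g β l → x l ≠ x j

/-- the colour `c` is allowed for `b` -/
def Al (x : Fin m → C) (g : Fin m → ℕ) (β : ℕ) (c : C) : Prop :=
  ∀ l, Lf g β l ∨ Rt g β l → x l ≠ c

/-- minimal label 0, no letter of label 0 has a colour in `wa` -/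
def Kc (x : Fin m → C) (wa : C → Prop) (g : Fin m → ℕ) (β : ℕ) : Prop :=
  (β = 0 ∨ ∃ l, g l = 0) ∧ ∀ l, g l = 0 → ¬ wa (x l)

/-! linear version: the vertex `p` of the path `Fin m` is summed out -/

def LPr (x : Fin m → C) (g : Fin m → ℕ) (p : Fin m) : Prop :=
  ∀ i j, Inn g i j → i ≠ p → j ≠ p → x i ≠ x j

def NewLL (x : Fin m → C) (g : Fin m → ℕ) (p j : Fin m) : Prop :=
  (∀ l, l < j → Inn g l p → x l ≠ x j) ∧ ∀ l, Inn g p l → g l + 1 < g j → x l ≠ x j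

def NewRR (x : Fin m → C) (g : Fin m → ℕ) (p j : Fin m) : Prop :=
  (∀ l, Inn g l p → g l ≤ g j + 1 → x l ≠ x j) ∧ ∀ l, j < l → Inn g p l → x l ≠ x j

def AlL (x : Fin m → C) (g : Fin m → ℕ) (p : Fin m) (c : C) : Prop :=
  ∀ l, Inn g l p ∨ Inn g p l → x l ≠ c

end Comb

/-! ### combinatorial lemmas, cyclic -/

/-- LL: left swap -/
def S_LL : Prop := ∀ (m : ℕ) (C : Type) (x : Fin m → C) (g : Fin m → ℕ) (β : ℕ) (j : Fin m),
  Lf g β j → β < g j →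
  (Pr x (update g j β) (g j - 1) ↔ Pr x g β ∧ NewL x g β j ∧ (¬ Bd g β ∨ g j = β + 1))

/-- LR: right swap -/
def S_LR : Prop := ∀ (m : ℕ) (C : Type) (x : Fin m → C) (g : Fin m → ℕ) (β : ℕ) (j : Fin m),
  Rt g β j → β ≤ g j →
  (Pr x (update g j β) (g j + 1) ↔ Pr x g β ∧ NewR x g β j ∧ ¬ Bd g β)

/-- CNT: each colour is allowed or has a unique first neighbour -/
def S_CNT : Prop := ∀ (m : ℕ) (C : Type) (x : Fin m → C) (g : Fin m → ℕ) (β : ℕ) (c : C),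
  I (Al x g β c) + ∑ j, I (Lf g β j ∧ NewL x g β j ∧ x j = c)
    + ∑ j, I (Rt g β j ∧ NewR x g β j ∧ x j = c) = 1

/-- INI: the initial neighbours -/
def S_INI : Prop := ∀ (m : ℕ) (C : Type) (x : Fin m → C) (g : Fin m → ℕ) (β : ℕ),
  ∑ j, I (Lf g β j ∧ g j ≤ β) = I (¬ Bd g β) ∧
  ∑ j, I (Rt g β j ∧ g j < β) = I (∃ l, g l < β) ∧
  (Pr x g β → ∀ j, Lf g β j → g j ≤ β → NewL x g β j) ∧
  (Pr x g β → ∀ j, Rt g β j → g j < β → NewR x g β j)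

/-- INV: class conditions under the swaps -/
def S_INV : Prop := ∀ (m : ℕ) (C : Type) (x : Fin m → C) (wa : C → Prop) (g : Fin m → ℕ) (β : ℕ)
  (j : Fin m),
  (β < g j → (Kc x wa (update g j β) (g j - 1) ↔ Kc x wa g β ∧ (β = 0 → ¬ wa (x j)))) ∧
  (β ≤ g j → (Kc x wa (update g j β) (g j + 1) ↔ Kc x wa g β ∧ (β = 0 → ¬ wa (x j)))) ∧
  (β < g j → (Lf (update g j β) (g j - 1) j ↔ Lf g β j)) ∧
  (β ≤ g j → (Rt (update g j β) (g j + 1) j ↔ Rt g β j))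

/-! ### combinatorial lemmas, linear -/

/-- KL: linear left swap -/
def S_KL : Prop := ∀ (m : ℕ) (C : Type) (x : Fin m → C) (g : Fin m → ℕ) (p j : Fin m),
  Inn g j p → g p < g j →
  (LPr x (update (update g j (g p)) p (g j - 1)) p ↔ LPr x g p ∧ NewLL x g p j)

/-- KR: linear right swap -/
def S_KR : Prop := ∀ (m : ℕ) (C : Type) (x : Fin m → C) (g : Fin m → ℕ) (p j : Fin m),
  Inn g p j → g p ≤ g j →
  (LPr x (update (update g j (g p)) p (g j + 1)) p ↔ LPr x g p ∧ NewRR x g p j)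

/-- KCNT: linear count -/
def S_KCNT : Prop := ∀ (m : ℕ) (C : Type) (x : Fin m → C) (g : Fin m → ℕ) (p : Fin m) (c : C),
  I (AlL x g p c) + ∑ j, I (Inn g j p ∧ NewLL x g p j ∧ x j = c)
    + ∑ j, I (Inn g p j ∧ NewRR x g p j ∧ x j = c) = 1

/-- KINI: linear, initial neighbours -/
def S_KINI : Prop := ∀ (m : ℕ) (C : Type) (x : Fin m → C) (g : Fin m → ℕ) (p : Fin m),
  ∑ j, I (Inn g j p ∧ g j ≤ g p) = I (∃ l, l < p ∧ g l ≤ g p) ∧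
  ∑ j, I (Inn g p j ∧ g j < g p) = I (∃ l, p < l ∧ g l < g p) ∧
  (LPr x g p → ∀ j, Inn g j p → g j ≤ g p → NewLL x g p j) ∧
  (LPr x g p → ∀ j, Inn g p j → g j < g p → NewRR x g p j) ∧
  (∀ j, j < p → g p < g j →
    (Inn (update (update g j (g p)) p (g j - 1)) j p ↔ Inn g j p)) ∧
  (∀ j, p < j → g p ≤ g j →
    (Inn (update (update g j (g p)) p (g j + 1)) p j ↔ Inn g p j))

/-! ### sums over labels -/

noncomputable def SB {m : ℕ} (t : ℝ) (F : (Fin m → ℕ) → ℝ) : ℝ :=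
  ∑' g : Fin m → ℕ, t ^ (∑ l, g l) * F g

noncomputable def SS {m : ℕ} (t : ℝ) (F : (Fin m → ℕ) × ℕ → ℝ) : ℝ :=
  ∑' p : (Fin m → ℕ) × ℕ, t ^ (∑ l, p.1 l + p.2) * F p

/-- SUM: summability and linearity -/
def S_SUM : Prop := ∀ (m : ℕ) (t : ℝ), 0 < t → t < 1 →
  (∀ F : (Fin m → ℕ) → ℝ, (∃ K, ∀ g, |F g| ≤ K) →
    Summable (fun g : Fin m → ℕ => t ^ (∑ l, g l) * F g)) ∧
  (∀ F : (Fin m → ℕ) × ℕ → ℝ, (∃ K, ∀ p, |F p| ≤ K) →
    Summable (fun p : (Fin m → ℕ) × ℕ => t ^ (∑ l, p.1 l + p.2) * F p))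

/-- TS: the swaps in the sums -/
def S_TS : Prop := ∀ (m : ℕ) (t : ℝ) (j : Fin m) (F : (Fin m → ℕ) × ℕ → ℝ), 0 < t → t < 1 →
  SS t (fun p => I (p.2 < p.1 j) * F (update p.1 j p.2, p.1 j - 1))
    = t * SS t (fun p => I (p.1 j ≤ p.2) * F p) ∧
  t * SS t (fun p => I (p.2 ≤ p.1 j) * F (update p.1 j p.2, p.1 j + 1))
    = SS t (fun p => I (p.1 j < p.2) * F p)

/-- KTS: the swaps in the sums, linear -/
def S_KTS : Prop := ∀ (m : ℕ) (t : ℝ) (p j : Fin m) (F : (Fin m → ℕ) → ℝ), 0 < t → t < 1 →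
  j ≠ p →
  SB t (fun g => I (g p < g j) * F (update (update g j (g p)) p (g j - 1)))
    = t * SB t (fun g => I (g j ≤ g p) * F g) ∧
  t * SB t (fun g => I (g p ≤ g j) * F (update (update g j (g p)) p (g j + 1)))
    = SB t (fun g => I (g j < g p) * F g)

/-- the path law (unnormalised) -/
noncomputable def Bh {m : ℕ} {C : Type} (t : ℝ) (x : Fin m → C) : ℝ := SB t (fun g => I (PI x g))

/-- MAIN: cyclic sum over the colour of `b`, for a set `wa` of wall colours -/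
def S_MAIN : Prop := ∀ (m : ℕ) (C : Type) [Fintype C] (x : Fin m → C) (wa : C → Prop) (t : ℝ),
  0 < t → t < 1 → (Fintype.card C : ℝ) = t + 1 / t + 2 →
  ∑ c, SS t (fun p : (Fin m → ℕ) × ℕ => I (Pr x p.1 p.2 ∧ ¬ Bd p.1 p.2 ∧ Kc x wa p.1 p.2 ∧
      Al x p.1 p.2 c ∧ (p.2 = 0 → ¬ wa c)))
    = (1 + 1 / t - ∑ c, I (wa c)) *
        SS t (fun p : (Fin m → ℕ) × ℕ => I (Pr x p.1 p.2 ∧ ¬ Bd p.1 p.2 ∧ Kc x wa p.1 p.2 ∧
          p.2 = 0))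
      + SS t (fun p : (Fin m → ℕ) × ℕ => I (Pr x p.1 p.2 ∧ Bd p.1 p.2 ∧ Kc x wa p.1 p.2) *
          ∑ j, I (Lf p.1 p.2 j ∧ p.1 j = p.2 + 1 ∧ NewL x p.1 p.2 j ∧ (p.2 = 0 → ¬ wa (x j))))

/-- ARE -/
def S_ARE : Prop := ∀ (m : ℕ) (C : Type) [Fintype C] (x : Fin m → C) (wa : C → Prop) (t : ℝ),
  0 < t → t < 1 → 0 < m →
  SS t (fun p : (Fin m → ℕ) × ℕ => I (Pr x p.1 p.2 ∧ ¬ Bd p.1 p.2 ∧ Kc x wa p.1 p.2 ∧ p.2 = 0))
    = SB t (fun g : Fin m → ℕ => I (PI x g ∧ (∃ l, g l = 0) ∧ ∀ l, g l = 0 → ¬ wa (x l)))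

/-- CO -/
def S_CO : Prop := ∀ (m : ℕ) (C : Type) [Fintype C] (x : Fin m → C) (wa : C → Prop) (t : ℝ),
  0 < t → t < 1 → 0 < m →
  SS t (fun p : (Fin m → ℕ) × ℕ => I (Pr x p.1 p.2 ∧ Bd p.1 p.2 ∧ Kc x wa p.1 p.2) *
      ∑ j, I (Lf p.1 p.2 j ∧ p.1 j = p.2 + 1 ∧ NewL x p.1 p.2 j ∧ (p.2 = 0 → ¬ wa (x j))))
    = t ^ m * SB t (fun g : Fin m → ℕ => I (PI x g) * ∑ c, I (¬ wa c ∧ ∃ l, g l = 0 ∧ x l = c))

/-- the weight of the cyclic word `b x` -/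
noncomputable def Tb {m : ℕ} {C : Type} [Fintype C] (t : ℝ) (x : Fin m → C) (b : C) : ℝ :=
  SS t (fun p : (Fin m → ℕ) × ℕ => I (Pr x p.1 p.2 ∧ ¬ Bd p.1 p.2 ∧ Al x p.1 p.2 b ∧
    (p.2 = 0 ∨ ∃ l, p.1 l = 0)) *
    (1 + t ^ (m + 1) - t ^ (m + 1) * ∑ c, I ((p.2 = 0 ∧ b = c) ∨ ∃ l, p.1 l = 0 ∧ x l = c)))

/-- FIN: the sum rule -/
def S_FIN : Prop := ∀ (m : ℕ) (C : Type) [Fintype C] (x : Fin m → C) (t : ℝ),
  0 < t → t < 1 → 0 < m → (Fintype.card C : ℝ) = t + 1 / t + 2 →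
  ∑ b, Tb t x b = (1 + 1 / t) * (1 - t ^ (m + 2)) * (1 - t ^ m) * Bh t x

/-! ### cyclic form -/

/-- `i` modulo `m + 1` -/
def cy (m i : ℕ) : Fin (m + 1) := ⟨i % (m + 1), Nat.mod_lt _ (Nat.succ_pos _)⟩

/-- proper labelled cyclic word -/
def PC {m : ℕ} {C : Type} (y : Fin (m + 1) → C) (G : Fin (m + 1) → ℕ) : Prop :=
  ∀ i j : ℕ, i < j → j ≤ i + (m + 1) →
    (∀ l : ℕ, i < l → l < j → G (cy m i) ≤ G (cy m l) ∧ G (cy m j) < G (cy m l)) →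
    y (cy m i) ≠ y (cy m j)

noncomputable def Tc {m : ℕ} {C : Type} [Fintype C] (t : ℝ) (y : Fin (m + 1) → C) : ℝ :=
  SB t (fun G : Fin (m + 1) → ℕ => I (PC y G ∧ ∃ i, G i = 0) *
    (1 + t ^ (m + 1) - t ^ (m + 1) * ∑ c, I (∃ i, G i = 0 ∧ y i = c)))

/-- EQV: description of the cyclic properness from the vertex 0 -/
def S_EQV : Prop := ∀ (m : ℕ) (C : Type) (y : Fin (m + 1) → C) (G : Fin (m + 1) → ℕ),
  PC y G ↔ (Pr (fun i : Fin m => y i.succ) (fun i : Fin m => G i.succ) (G 0) ∧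
    ¬ Bd (fun i : Fin m => G i.succ) (G 0) ∧
    Al (fun i : Fin m => y i.succ) (fun i : Fin m => G i.succ) (G 0) (y 0))

/-- TCB -/
def S_TCB : Prop := ∀ (m : ℕ) (C : Type) [Fintype C] (y : Fin (m + 1) → C) (t : ℝ),
  0 < t → t < 1 → Tc t y = Tb t (fun i : Fin m => y i.succ) (y 0)

/-- ROT: rotation and colour invariance, properness, sign -/
def S_ROT : Prop := ∀ (m : ℕ) (C : Type) [Fintype C] (y : Fin (m + 1) → C) (t : ℝ),
  0 < t → t < 1 →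
  Tc t (fun i => y (i + 1)) = Tc t y ∧
  (∀ σ : Equiv.Perm C, Tc t (σ ∘ y) = Tc t y) ∧
  ((∃ i, y i = y (i + 1)) → Tc t y = 0) ∧
  ((m : ℝ) * t ^ (m + 1) ≤ 1 → 0 ≤ Tc t y)

/-! ### linear cut identity -/

/-- LMAIN -/
def S_LMAIN : Prop := ∀ (m : ℕ) (C : Type) [Fintype C] (x : Fin m → C) (p : Fin m) (t : ℝ),
  0 < t → t < 1 → (Fintype.card C : ℝ) = t + 1 / t + 2 →
  ∑ c, Bh t (update x p c)
    = (1 + t) * SB t (fun g => I (LPr x g p ∧ ∀ l, l < p → g p < g l))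
      + (1 + 1 / t) * SB t (fun g => I (LPr x g p ∧ ∀ l, p < l → g p ≤ g l))

/-- path law of the first `m` letters of a sequence -/
noncomputable def Bn {C : Type} (t : ℝ) (m : ℕ) (x : ℕ → C) : ℝ := Bh t (fun i : Fin m => x i)

/-- FAC: the two sums of LMAIN factorise -/
def S_FAC : Prop := ∀ (C : Type) (k l : ℕ) (x : ℕ → C) (t : ℝ) (p : Fin (k + 1 + l)),
  0 < t → t < 1 → (p : ℕ) = k →
  SB t (fun g : Fin (k + 1 + l) → ℕ =>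
      I (LPr (fun i : Fin (k + 1 + l) => x i) g p ∧ ∀ i, i < p → g p < g i))
    = t ^ k / (1 - t ^ (k + 1)) * (Bn t k x * Bn t l (fun i => x (k + 1 + i))) ∧
  SB t (fun g : Fin (k + 1 + l) → ℕ =>
      I (LPr (fun i : Fin (k + 1 + l) => x i) g p ∧ ∀ i, p < i → g p ≤ g i))
    = 1 / (1 - t ^ (l + 1)) * (Bn t k x * Bn t l (fun i => x (k + 1 + i)))

/-- POS: positivity -/
def S_POS : Prop := ∀ (C : Type) (t : ℝ), 0 < t → t < 1 →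
  (∀ (m : ℕ) (x : ℕ → C), 0 ≤ Bn t m x) ∧ (∀ x : ℕ → C, Bn t 0 x = 1) ∧
  (∀ (m : ℕ) (x : ℕ → C), (∀ i j, i < j → j < m → x i ≠ x j) → 0 < Bn t m x)

/-! ### probability -/

/-- A pair (cyclic weights, path weights) as needed. -/
structure Good (q n : ℕ) (f : (Fin n → Fin q) → ℝ) (B : ℕ → (ℕ → Fin q) → ℝ) : Prop where
  nonneg : ∀ y, 0 ≤ f y
  tot : 0 < ∑ y, f y
  proper : ∀ (y : Fin n → Fin q) (i j : Fin n), (j : ℕ) = ((i : ℕ) + 1) % n → y i = y j → f y = 0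
  perm : ∀ (σ : Equiv.Perm (Fin q)) y, f (σ ∘ y) = f y
  rot : ∀ (y z : Fin n → Fin q), (∀ i j : Fin n, (j : ℕ) = ((i : ℕ) + 1) % n → z i = y j) →
    f z = f y
  /-- the path weights depend only on the first `m` letters -/
  loc : ∀ (m : ℕ) (x x' : ℕ → Fin q), (∀ i, i < m → x i = x' i) → B m x = B m x'
  /-- summing out a letter of the path -/
  cut : ∃ K : ℕ → ℕ → ℝ, (∀ k l, 0 < K k l) ∧ ∀ (k l : ℕ) (x : ℕ → Fin q),
    ∑ c, B (k + 1 + l) (update x k c) = K k l * (B k x * B l (fun i => x (k + 1 + i)))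
  /-- summing out the letter `0` of the cycle -/
  cyc : ∃ K : ℝ, 0 < K ∧ ∀ x : ℕ → Fin q,
    ∑ c, f (fun i : Fin n => if (i : ℕ) = 0 then c else x ((i : ℕ) - 1)) = K * B (n - 1) x

/-- the conclusion for given `k`, `q`, `n` -/
def Concl (k q n : ℕ) : Prop :=
  ∃ μ : MeasureTheory.Measure (Fin n → Fin q), MeasureTheory.IsProbabilityMeasure μ ∧
    (∀ᵐ x ∂μ, ∀ i j : Fin n, (SimpleGraph.cycleGraph n).Adj i j → x i ≠ x j) ∧
    (∀ σ : Equiv.Perm (Fin q), μ.map (fun x : Fin n → Fin q => σ ∘ x) = μ) ∧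
    (∀ A B : Set (Fin n),
      (∀ a ∈ A, ∀ b ∈ B, k < (SimpleGraph.cycleGraph n).dist a b) →
      ProbabilityTheory.IndepFun (fun x : Fin n → Fin q => fun a : A => x a)
        (fun x : Fin n → Fin q => fun b : B => x b) μ)

/-- Discrete form of the conclusion: weights `f` on `Fin n → Fin q`. -/
structure Disc (k q n : ℕ) (f : (Fin n → Fin q) → ℝ) : Prop where
  nonneg : ∀ y, 0 ≤ f y
  tot : 0 < ∑ y, f y
  proper : ∀ (y : Fin n → Fin q) (i j : Fin n), (SimpleGraph.cycleGraph n).Adj i j →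
    y i = y j → f y = 0
  perm : ∀ (σ : Equiv.Perm (Fin q)) y, f (σ ∘ y) = f y
  indep : ∀ (A B : Finset (Fin n)),
    (∀ a ∈ A, ∀ b ∈ B, k < (SimpleGraph.cycleGraph n).dist a b) → ∀ y : Fin n → Fin q,
    (∑ z, f z * I ((∀ a ∈ A, z a = y a) ∧ ∀ b ∈ B, z b = y b)) * ∑ z, f z
      = (∑ z, f z * I (∀ a ∈ A, z a = y a)) * ∑ z, f z * I (∀ b ∈ B, z b = y b)

/-- PIND: independence for the path weights -/
def S_PIND : Prop := ∀ (q : ℕ) (B : ℕ → (ℕ → Fin q) → ℝ),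
  (∀ (m : ℕ) (x x' : ℕ → Fin q), (∀ i, i < m → x i = x' i) → B m x = B m x') →
  (∃ K : ℕ → ℕ → ℝ, (∀ k l, 0 < K k l) ∧ ∀ (k l : ℕ) (x : ℕ → Fin q),
    ∑ c, B (k + 1 + l) (update x k c) = K k l * (B k x * B l (fun i => x (k + 1 + i)))) →
  ∀ (m : ℕ) (e : (Fin m → Fin q) → ℕ → Fin q), (∀ z (i : Fin m), e z i = z i) →
  ∀ (S T : Finset (Fin m)), (∀ a ∈ S, ∀ b ∈ T, (a : ℕ) + 1 < b ∨ (b : ℕ) + 1 < a) →
  ∀ y : Fin m → Fin q,
    (∑ z, B m (e z) * I ((∀ a ∈ S, z a = y a) ∧ ∀ b ∈ T, z b = y b)) * ∑ z, B m (e z)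
      = (∑ z, B m (e z) * I (∀ a ∈ S, z a = y a)) * ∑ z, B m (e z) * I (∀ b ∈ T, z b = y b)

/-- CIND: from `Good` to `Disc` (uses PIND and rotation) -/
def S_CIND : Prop := S_PIND → ∀ (q n : ℕ) (f : (Fin n → Fin q) → ℝ) (B : ℕ → (ℕ → Fin q) → ℝ),
  3 ≤ n → Good q n f B → Disc 1 q n f

/-- MEAS: from `Disc` to the measure -/
def S_MEAS : Prop := ∀ (k q n : ℕ) (f : (Fin n → Fin q) → ℝ), 3 ≤ n → Disc k q n f → Concl k q n

/-- FOUR: the case `q = 4` -/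
def S_FOUR : Prop := ∀ n : ℕ, 3 ≤ n → ∃ (f : (Fin n → Fin 4) → ℝ) (B : ℕ → (ℕ → Fin 4) → ℝ),
  Good 4 n f B

/-- THREE: from 4 colours to 3 colours -/
def S_THREE : Prop := ∀ (n : ℕ) (f : (Fin n → Fin 4) → ℝ), 3 ≤ n → Disc 1 4 n f →
  ∃ f' : (Fin n → Fin 3) → ℝ, Disc 3 3 n f'

/-- FIVE: the case `q ≥ 5` -/
def S_FIVE : Prop := ∀ q n : ℕ, 5 ≤ q → 3 ≤ n →
  ∃ (f : (Fin n → Fin q) → ℝ) (B : ℕ → (ℕ → Fin q) → ℝ), Good q n f B

end Pool.Agent.W438.CY
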